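import Pool.Agent.H72.HR.Targets

/-!
Rows OBA (and OBT) of the board hrk_modules.
-/

open Module

namespace Pool.Agent.H93.HR

open Pool.Agent.H72.HR

variable {J : Type} [Fintype J]

/-- the contraction with `e` -/
noncomputable def ctr {P : Type} (e : J → ℤ) : (P × J → ℚ) →ₗ[ℚ] (P → ℚ) :=
  LinearMap.pi (fun l : P => ∑ a, (e a : ℚ) • LinearMap.proj (R := ℚ) (φ := fun _ : P × J => ℚ) (l, a))

theorem ctr_apply {P : Type} (e : J → ℤ) (v : P × J → ℚ) (p : P) :
    ctr e v p = ∑ a, (e a : ℚ) * v (p, a) := by
  simp [ctr, LinearMap.pi_apply, LinearMap.sum_apply]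

theorem Ind_mono {A B : ℕ} (h : A ≤ B) {e : J → ℤ} (he : Ind B e) : Ind A e :=
  fun m hm h0 => he m (fun a => (hm a).trans (by exact_mod_cast h)) h0

/-- a common denominator -/
theorem exists_int {P : Type} [Fintype P] (v : P → ℚ) :
    ∃ (N : ℤ) (w : P → ℤ), N ≠ 0 ∧ ∀ p, (w p : ℚ) = N * v p := by
  classical
  obtain ⟨b, hb⟩ := IsLocalization.exist_integer_multiples_of_finset (nonZeroDivisors ℤ)
    (Finset.univ.image v)
  have h : ∀ p, ∃ z : ℤ, (z : ℚ) = (b : ℤ) * v p := by
    intro p
    obtain ⟨z, hz⟩ := hb (v p) (Finset.mem_image_of_mem _ (Finset.mem_univ p))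
    refine ⟨z, ?_⟩
    simpa [Algebra.smul_def] using hz
  choose w hw using h
  exact ⟨b, w, nonZeroDivisors.coe_ne_zero b, hw⟩

/-- the key lemma: a subspace of `ℚ^P ⊗ ℚ^J` has dimension at most `|J|` times the dimension of
its contraction, if `e` has no short relation. -/
theorem key [DecidableEq J] {P : Type} [Fintype P] [DecidableEq P] (S : Finset P) :
    ∀ V : Submodule ℚ (P × J → ℚ), (∀ v ∈ V, ∀ p, p ∉ S → ∀ a, v (p, a) = 0) →
    ∃ A : ℕ, ∀ e : J → ℤ, Ind A e →
      finrank ℚ V ≤ Fintype.card J * finrank ℚ (V.map (ctr e)) := by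
  induction S using Finset.induction_on with
  | empty =>
    intro V hV
    refine ⟨0, fun e _ => ?_⟩
    have : V = ⊥ := by
      rw [eq_bot_iff]
      intro v hv
      rw [Submodule.mem_bot]
      ext ⟨p, a⟩
      exact hV v hv p (Finset.notMem_empty p) a
    rw [this]; simp
  | insert p S hp ih =>
    intro V hV
    -- the projection to the coordinates `(p, a)`
    let π : (P × J → ℚ) →ₗ[ℚ] (J → ℚ) := LinearMap.funLeft ℚ ℚ (fun a : J => (p, a))
    have hπ : ∀ v a, π v a = v (p, a) := fun v a => rfl
    by_cases hVk : V ≤ LinearMap.ker π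
    · refine ih V (fun v hv q hq a => ?_)
      by_cases hqp : q = p
      · subst hqp
        have := hVk hv
        rw [LinearMap.mem_ker] at this
        rw [← hπ v a, this]; rfl
      · exact hV v hv q (by simp [hqp, hq]) a
    · obtain ⟨v, hv, hvk⟩ := SetLike.not_le_iff_exists.1 hVk
      obtain ⟨A₁, hA₁⟩ := ih (V ⊓ LinearMap.ker π) (fun v hv q hq a => by
        by_cases hqp : q = p
        · subst hqp
          have := hv.2
          rw [SetLike.mem_coe, LinearMap.mem_ker] at this
          rw [← hπ v a, this]; rfl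
        · exact hV v hv.1 q (by simp [hqp, hq]) a)
      obtain ⟨N, w, hN, hw⟩ := exists_int (fun a : J => v (p, a))
      refine ⟨max A₁ (∑ a, (w a).natAbs), fun e he => ?_⟩
      have h1 := hA₁ e (Ind_mono (le_max_left _ _) he)
      have h2 := Ind_mono (le_max_right _ _) he
      have hne : ctr e v p ≠ 0 := by
        intro h0
        rw [ctr_apply] at h0
        have h3 : ∑ a, w a * e a = 0 := by
          have h4 : ((∑ a, w a * e a : ℤ) : ℚ) = 0 := by
            push_cast
            calc ∑ a, (w a : ℚ) * e a = N * ∑ a, (e a : ℚ) * v (p, a) := by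
                  rw [Finset.mul_sum]
                  refine Finset.sum_congr rfl fun a _ => ?_
                  rw [hw a]; ring
              _ = 0 := by rw [h0, mul_zero]
          exact_mod_cast h4
        have h5 := h2 w (fun a => by
          rw [Int.abs_eq_natAbs]
          exact_mod_cast Finset.single_le_sum (f := fun a => (w a).natAbs)
            (fun _ _ => Nat.zero_le _) (Finset.mem_univ a)) h3
        apply hvk
        rw [LinearMap.mem_ker]
        ext a
        have h6 := hw a
        rw [h5] at h6
        simp only [Pi.zero_apply, Int.cast_zero] at h6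
        rw [hπ]
        have hN' : (N : ℚ) ≠ 0 := by exact_mod_cast hN
        have := mul_eq_zero.1 h6.symm
        exact this.resolve_left hN'
      -- dimensions
      have hd1 : finrank ℚ V ≤ Fintype.card J + finrank ℚ (V ⊓ LinearMap.ker π : Submodule ℚ _) := by
        have h7 := LinearMap.finrank_range_add_finrank_ker (π.domRestrict V)
        have h8 : finrank ℚ (LinearMap.range (π.domRestrict V)) ≤ Fintype.card J := by
          have := Submodule.finrank_le (LinearMap.range (π.domRestrict V))
          simpa using this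
        have h9 : finrank ℚ (LinearMap.ker (π.domRestrict V)) =
            finrank ℚ (V ⊓ LinearMap.ker π : Submodule ℚ _) := by
          rw [LinearMap.ker_domRestrict]
          rw [← Submodule.map_comap_subtype]
          exact (LinearEquiv.finrank_eq (Submodule.equivMapOfInjective _
            (Submodule.injective_subtype V) _))
        omega
      have hd2 : finrank ℚ ((V ⊓ LinearMap.ker π).map (ctr e)) + 1 ≤ finrank ℚ (V.map (ctr e)) := by
        have hlt : (V ⊓ LinearMap.ker π).map (ctr e) < V.map (ctr e) := by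
          refine lt_of_le_of_ne (Submodule.map_mono inf_le_left) ?_
          intro heq
          have h10 : ctr e v ∈ (V ⊓ LinearMap.ker π).map (ctr e) := by
            rw [heq]; exact Submodule.mem_map_of_mem hv
          obtain ⟨u, hu, hue⟩ := Submodule.mem_map.1 h10
          apply hne
          rw [← hue, ctr_apply]
          refine Finset.sum_eq_zero fun a _ => ?_
          have := hu.2
          rw [SetLike.mem_coe, LinearMap.mem_ker] at this
          rw [← hπ u a, this]; simp
        exact Submodule.finrank_lt_finrank_of_lt hlt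
      calc finrank ℚ V ≤ Fintype.card J + finrank ℚ (V ⊓ LinearMap.ker π : Submodule ℚ _) := hd1
        _ ≤ Fintype.card J + Fintype.card J * finrank ℚ ((V ⊓ LinearMap.ker π).map (ctr e)) := by
            exact Nat.add_le_add_left h1 _
        _ = Fintype.card J * (finrank ℚ ((V ⊓ LinearMap.ker π).map (ctr e)) + 1) := by ring
        _ ≤ _ := Nat.mul_le_mul_left _ hd2

/-- the key lemma without support condition -/
theorem key' [DecidableEq J] {P : Type} [Fintype P] [DecidableEq P] (V : Submodule ℚ (P × J → ℚ)) :
    ∃ A : ℕ, ∀ e : J → ℤ, Ind A e →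
      finrank ℚ V ≤ Fintype.card J * finrank ℚ (V.map (ctr e)) :=
  key Finset.univ V (fun _ _ p hp => absurd (Finset.mem_univ p) hp)

/-- Row OBT. -/
theorem obt_target : T_OBT := by
  classical
  intro J _ _ c T1
  -- finitely many sets `Θ`
  let B : Set (Fin c × J → ℤ) := {u | ∀ x, |u x| ≤ T1}
  have hB : B.Finite := by
    have : B ⊆ Set.pi Set.univ (fun _ => Set.Icc (-(T1 : ℤ)) T1) := by
      intro u hu x _
      exact abs_le.1 (hu x)
    exact (Set.Finite.pi' (fun _ => Set.finite_Icc _ _)).subset (by
      intro u hu x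
      exact abs_le.1 (hu x))
  have hP : {Θ : Set (Fin c × J → ℤ) | Θ ⊆ B}.Finite := hB.finite_subsets
  -- the space of `Θ`
  let V : Set (Fin c × J → ℤ) → Submodule ℚ (Fin c × J → ℚ) := fun Θ =>
    { carrier := {v | ∀ u ∈ Θ, ∑ x, (u x : ℚ) * v x = 0}
      add_mem' := by
        intro v w hv hw u hu
        simp only [Pi.add_apply, mul_add, Finset.sum_add_distrib, hv u hu, hw u hu, add_zero]
      zero_mem' := by intro u _; simp
      smul_mem' := by
        intro a v hv u hu
        have := hv u hu
        simp only [Pi.smul_apply, smul_eq_mul]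
        calc ∑ x, (u x : ℚ) * (a * v x) = a * ∑ x, (u x : ℚ) * v x := by
              rw [Finset.mul_sum]; exact Finset.sum_congr rfl fun x _ => by ring
          _ = 0 := by rw [this, mul_zero] }
  choose A hA using fun Θ => key' (J := J) (V Θ)
  refine ⟨hP.toFinset.sup A, fun e he Θ hΘ U hU => ?_⟩
  have hUV : U = V Θ := by
    ext v; exact hU v
  rw [hUV]
  exact hA Θ e (Ind_mono (Finset.le_sup (f := A) (hP.mem_toFinset.2 (fun u hu => hΘ u hu))) he)

/-- Row OBA. -/
theorem oba_target : T_OBA := by
  classical
  intro J _ _ l K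
  let B : Set (Fin l × J → ℤ) := {u | ∀ x, |u x| ≤ K}
  have hB : B.Finite := by
    exact (Set.Finite.pi' (fun _ => Set.finite_Icc (-(K : ℤ)) K)).subset (by
      intro u hu x
      exact abs_le.1 (hu x))
  have hP : {Θ : Set (Fin l × J → ℤ) | Θ ⊆ B}.Finite := hB.finite_subsets
  let V : Set (Fin l × J → ℤ) → Submodule ℚ (Fin l × J → ℚ) := fun Θ =>
    Submodule.span ℚ ((fun (u : Fin l × J → ℤ) (x : Fin l × J) => (u x : ℚ)) '' Θ)
  choose A hA using fun Θ => key' (J := J) (V Θ)
  refine ⟨hP.toFinset.sup A, fun e he m v hv hli X hX => ?_⟩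
  have h1 := hA (Set.range v) e (Ind_mono (Finset.le_sup (f := A) (hP.mem_toFinset.2 (by
    rintro u ⟨j, rfl⟩
    exact hv j))) he)
  have h2 : finrank ℚ (V (Set.range v)) = m := by
    have hliq : LinearIndependent ℚ (fun (j : Fin m) (x : Fin l × J) => (v j x : ℚ)) := by
      rw [← LinearIndependent.iff_fractionRing ℤ ℚ]
      let F : (Fin l × J → ℤ) →ₗ[ℤ] (Fin l × J → ℚ) :=
        { toFun := fun u x => (u x : ℚ)
          map_add' := by intro u w; ext x; simp
          map_smul' := by intro a u; ext x; simp }
      have hF : LinearMap.ker F = ⊥ := by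
        rw [LinearMap.ker_eq_bot]
        intro u w huw
        ext x
        have h0 : ((u x : ℤ) : ℚ) = ((w x : ℤ) : ℚ) := congrFun huw x
        exact_mod_cast h0
      exact hli.map' F hF
    have h3 : V (Set.range v) = Submodule.span ℚ
        (Set.range (fun (j : Fin m) (x : Fin l × J) => (v j x : ℚ))) := by
      simp only [V]
      congr 1
      ext u
      simp
    rw [h3, finrank_span_eq_card hliq]
    simp
  have h4 : (V (Set.range v)).map (ctr e) ≤ X := by
    simp only [V]
    rw [Submodule.map_span, Submodule.span_le]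
    rintro _ ⟨_, ⟨_, ⟨j, rfl⟩, rfl⟩, rfl⟩
    have h5 := hX j
    rw [SetLike.mem_coe]
    convert h5 using 1
    ext p
    rw [ctr_apply]
  rw [h2] at h1
  exact h1.trans (Nat.mul_le_mul_left _ (Submodule.finrank_mono h4))

end Pool.Agent.H93.HR
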